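import Pool.Agent.H14.AVR.Stmts2

/-! # AVR, module EQB: equidistribution of the bounded symmetric matrices -/

set_option autoImplicit false

namespace Pool.AVR

open Polynomial Matrix

/-- fibres of a surjective homomorphism of finite groups -/
theorem EQB_fib {G H : Type} [AddGroup G] [AddGroup H] [Finite G] [Finite H] (ψ : G →+ H)
    (hψ : Function.Surjective ψ) (T : Set H) :
    Nat.card {g : G // ψ g ∈ T} * Nat.card H = Nat.card G * Nat.card T := by
  classical
  have := Fintype.ofFinite G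
  have := Fintype.ofFinite H
  have hk : ∀ t : H, (Finset.univ.filter fun g : G => ψ g = t).card =
      (Finset.univ.filter fun g : G => ψ g = 0).card := by
    intro t
    exact AddMonoidHom.card_fiber_eq_of_mem_range ψ (hψ t) (hψ 0)
  have h1 : Nat.card {g : G // ψ g ∈ T} = Nat.card T *
      (Finset.univ.filter fun g : G => ψ g = 0).card := by
    rw [Nat.card_eq_fintype_card, Fintype.card_subtype, Nat.card_eq_fintype_card,
      ← Set.toFinset_card]
    rw [Finset.card_eq_sum_card_fiberwise (f := ψ) (t := T.toFinset)]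
    · rw [← smul_eq_mul, ← Finset.sum_const]
      apply Finset.sum_congr rfl
      intro t ht
      rw [← hk t]
      congr 1
      ext g
      simp only [Finset.mem_filter, Finset.mem_univ, true_and]
      constructor
      · rintro ⟨_, h⟩; exact h
      · intro h; exact ⟨by rw [h]; exact Set.mem_toFinset.1 ht, h⟩
    · intro g hg
      simpa using hg
  have h2 : Nat.card G = Nat.card H * (Finset.univ.filter fun g : G => ψ g = 0).card := by
    rw [Nat.card_eq_fintype_card, Nat.card_eq_fintype_card, ← Finset.card_univ (α := G)]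
    rw [Finset.card_eq_sum_card_fiberwise (f := ψ) (t := Finset.univ)]
    · rw [← Finset.card_univ (α := H), ← smul_eq_mul, ← Finset.sum_const]
      apply Finset.sum_congr rfl
      intro t _
      exact hk t
    · intro g _
      simp
  rw [h1, h2]
  ring

/-- symmetric matrices with entries in given sets -/
def EQB_equiv {R : Type} (P : Fin 3 → Fin 3 → Set R) (hP : ∀ i j, P i j = P j i) :
    {B : Matrix (Fin 3) (Fin 3) R // Bᵀ = B ∧ ∀ i j, B i j ∈ P i j} ≃
      P 0 0 × P 0 1 × P 0 2 × P 1 1 × P 1 2 × P 2 2 where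
  toFun B := (⟨B.1 0 0, B.2.2 0 0⟩, ⟨B.1 0 1, B.2.2 0 1⟩, ⟨B.1 0 2, B.2.2 0 2⟩,
    ⟨B.1 1 1, B.2.2 1 1⟩, ⟨B.1 1 2, B.2.2 1 2⟩, ⟨B.1 2 2, B.2.2 2 2⟩)
  invFun x := ⟨!![x.1.1, x.2.1.1, x.2.2.1.1; x.2.1.1, x.2.2.2.1.1, x.2.2.2.2.1.1;
      x.2.2.1.1, x.2.2.2.2.1.1, x.2.2.2.2.2.1], by
    refine ⟨?_, ?_⟩
    · ext i j
      fin_cases i <;> fin_cases j <;> rfl
    · intro i j
      fin_cases i <;> fin_cases j
      · exact x.1.2
      · exact x.2.1.2
      · exact x.2.2.1.2
      · show x.2.1.1 ∈ P 1 0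
        rw [hP 1 0]; exact x.2.1.2
      · exact x.2.2.2.1.2
      · exact x.2.2.2.2.1.2
      · show x.2.2.1.1 ∈ P 2 0
        rw [hP 2 0]; exact x.2.2.1.2
      · show x.2.2.2.2.1.1 ∈ P 2 1
        rw [hP 2 1]; exact x.2.2.2.2.1.2
      · exact x.2.2.2.2.2.2⟩
  left_inv B := by
    apply Subtype.ext
    ext i j
    have h := B.2.1
    have h10 : B.1 1 0 = B.1 0 1 := by
      conv_lhs => rw [← h]
      rfl
    have h20 : B.1 2 0 = B.1 0 2 := by
      conv_lhs => rw [← h]
      rfl
    have h21 : B.1 2 1 = B.1 1 2 := by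
      conv_lhs => rw [← h]
      rfl
    fin_cases i <;> fin_cases j
    · rfl
    · rfl
    · rfl
    · exact h10.symm
    · rfl
    · rfl
    · exact h20.symm
    · exact h21.symm
    · rfl
  right_inv x := rfl

theorem EQB_card {R : Type} (P : Fin 3 → Fin 3 → Set R) (hP : ∀ i j, P i j = P j i) :
    Nat.card {B : Matrix (Fin 3) (Fin 3) R // Bᵀ = B ∧ ∀ i j, B i j ∈ P i j} =
      Nat.card (P 0 0) * (Nat.card (P 0 1) * (Nat.card (P 0 2) * (Nat.card (P 1 1) *
        (Nat.card (P 1 2) * Nat.card (P 2 2))))) := by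
  rw [Nat.card_congr (EQB_equiv P hP)]
  simp only [Nat.card_prod]

theorem EQB_finite {R : Type} (P : Fin 3 → Fin 3 → Set R) (hP : ∀ i j, P i j = P j i)
    (hf : ∀ i j, Finite (P i j)) :
    Finite {B : Matrix (Fin 3) (Fin 3) R // Bᵀ = B ∧ ∀ i j, B i j ∈ P i j} := by
  have := hf 0 0
  have := hf 0 1
  have := hf 0 2
  have := hf 1 1
  have := hf 1 2
  have := hf 2 2
  exact Finite.of_equiv _ (EQB_equiv P hP).symm

/-- polynomials of bounded degree -/
theorem EQB_poly (F : Type) [Field F] [Finite F] (N : ℕ) :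
    Finite {p : F[X] | p.natDegree ≤ N} ∧ Nat.card {p : F[X] | p.natDegree ≤ N} =
      Nat.card F ^ (N + 1) := by
  have e1 : {p : F[X] | p.natDegree ≤ N} = (degreeLT F (N + 1) : Set F[X]) := by
    ext p
    simp only [Set.mem_ofPred_eq, SetLike.mem_coe]
    rw [mem_degreeLT]
    constructor
    · intro h
      exact (degree_le_of_natDegree_le h).trans_lt (by exact_mod_cast Nat.lt_succ_self N)
    · intro h
      by_cases hp : p = 0
      · simp [hp]
      · rw [degree_eq_natDegree hp] at h
        have : p.natDegree < N + 1 := by exact_mod_cast h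
        omega
  rw [e1]
  have e2 : ((degreeLT F (N + 1) : Submodule F F[X]) : Set F[X]) ≃ (Fin (N + 1) → F) :=
    (degreeLTEquiv F (N + 1)).toEquiv
  refine ⟨Finite.of_equiv _ e2.symm, ?_⟩
  refine (Nat.card_congr e2).trans ?_
  rw [Nat.card_fun, Nat.card_eq_fintype_card (α := Fin (N + 1)),
    Fintype.card_fin]

theorem EQB_adj (F : Type) [Field F] [Finite F] (M : F[X]) (hM : M ≠ 0) :
    Finite (AdjoinRoot M) ∧ Nat.card (AdjoinRoot M) = Nat.card F ^ M.natDegree := by
  have b := AdjoinRoot.powerBasis hM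
  have : Module.Finite F (AdjoinRoot M) := (AdjoinRoot.powerBasis hM).finite
  have : Finite (AdjoinRoot M) := Module.finite_of_finite F
  refine ⟨this, ?_⟩
  rw [Module.natCard_eq_pow_finrank (K := F) (V := AdjoinRoot M),
    (AdjoinRoot.powerBasis hM).finrank, AdjoinRoot.powerBasis_dim]

/-- surjectivity for one entry -/
theorem EQB_surj (F : Type) [Field F] (M : F[X]) (hM : M ≠ 0) (N : ℕ)
    (hN : M.natDegree + 1 ≤ N) (r : AdjoinRoot M) (a b : F) :
    ∃ p : F[X], p.natDegree ≤ N ∧ AdjoinRoot.mk M p = r ∧ p.coeff N = a ∧ p.coeff (N - 1) = b := by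
  obtain ⟨s, hs⟩ := AdjoinRoot.mk_surjective (r - AdjoinRoot.mk M (monomial N a + monomial (N - 1) b))
  have hdeg : (s % M).degree < M.degree := EuclideanDomain.mod_lt s hM
  have hlt : ∀ k, M.natDegree ≤ k → (s % M).coeff k = 0 := by
    intro k hk
    apply coeff_eq_zero_of_degree_lt
    refine hdeg.trans_le ?_
    rw [degree_eq_natDegree hM]
    exact_mod_cast hk
  have hsd : (s % M).natDegree ≤ N := by
    rw [natDegree_le_iff_coeff_eq_zero]
    intro k hk
    exact hlt k (by omega)
  have hmk : AdjoinRoot.mk M (s % M) = AdjoinRoot.mk M s := by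
    have h := EuclideanDomain.div_add_mod s M
    conv_rhs => rw [← h]
    rw [map_add, map_mul, AdjoinRoot.mk_self, zero_mul, zero_add]
  refine ⟨monomial N a + monomial (N - 1) b + s % M, ?_, ?_, ?_, ?_⟩
  · refine (natDegree_add_le _ _).trans (max_le ((natDegree_add_le _ _).trans
      (max_le (natDegree_monomial_le a) ((natDegree_monomial_le b).trans (by omega)))) hsd)
  · rw [map_add, hmk, hs]
    ring
  · rw [coeff_add, coeff_add, coeff_monomial, coeff_monomial, if_pos rfl, if_neg (by omega),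
      hlt N (by omega), add_zero, add_zero]
  · rw [coeff_add, coeff_add, coeff_monomial, coeff_monomial, if_pos rfl, if_neg (by omega),
      hlt (N - 1) (by omega), add_zero, zero_add]

theorem eqb_thm : EQBStmt := by
  classical
  intro F _ _ n m M hM hmn hdeg W V hW hV
  let Nn : Fin 3 → Fin 3 → ℕ := fun i j => (2 * (n : ℤ) + dd m i + dd m j).toNat
  have hNn : ∀ i j, ((Nn i j : ℕ) : ℤ) = 2 * (n : ℤ) + dd m i + dd m j := by
    intro i j
    apply Int.toNat_of_nonneg
    have h1 : ∀ i, -(m : ℤ) ≤ dd m i := by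
      intro i
      fin_cases i <;> simp [dd]
    have := h1 i
    have := h1 j
    omega
  have hNsym : ∀ i j, Nn i j = Nn j i := by
    intro i j
    show (2 * (n : ℤ) + dd m i + dd m j).toNat = (2 * (n : ℤ) + dd m j + dd m i).toNat
    congr 1
    ring
  have hNlow : ∀ i j, M.natDegree + 1 ≤ Nn i j := by
    intro i j
    have h1 : ∀ i, -(m : ℤ) ≤ dd m i := by
      intro i
      fin_cases i <;> simp [dd]
    have := h1 i
    have := h1 j
    have := hNn i j
    omega
  have hBd : ∀ B : Matrix (Fin 3) (Fin 3) F[X], Bd n m B ↔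
      (Bᵀ = B ∧ ∀ i j, B i j ∈ {p : F[X] | p.natDegree ≤ Nn i j}) := by
    intro B
    unfold Bd
    constructor
    · rintro ⟨h1, h2⟩
      refine ⟨h1, fun i j => ?_⟩
      rw [Set.mem_ofPred_eq]
      by_cases h0 : B i j = 0
      · rw [h0]; simp
      · have := h2 i j h0
        rw [← hNn i j] at this
        exact_mod_cast this
    · rintro ⟨h1, h2⟩
      refine ⟨h1, fun i j _ => ?_⟩
      rw [← hNn i j]
      exact_mod_cast h2 i j
  -- the groups
  let G : AddSubgroup (Matrix (Fin 3) (Fin 3) F[X]) :=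
    { carrier := {B | Bᵀ = B ∧ ∀ i j, B i j ∈ {p : F[X] | p.natDegree ≤ Nn i j}}
      zero_mem' := ⟨by simp, fun i j => by simp⟩
      add_mem' := by
        rintro A B ⟨h1, h2⟩ ⟨h3, h4⟩
        refine ⟨by rw [transpose_add, h1, h3], fun i j => ?_⟩
        exact (natDegree_add_le _ _).trans (max_le (h2 i j) (h4 i j))
      neg_mem' := by
        rintro A ⟨h1, h2⟩
        refine ⟨by rw [transpose_neg, h1], fun i j => ?_⟩
        show (-(A i j)).natDegree ≤ Nn i j
        rw [natDegree_neg]
        exact h2 i j }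
  let H (R : Type) [AddCommGroup R] : AddSubgroup (Matrix (Fin 3) (Fin 3) R) :=
    { carrier := {B | Bᵀ = B ∧ ∀ i j, B i j ∈ (Set.univ : Set R)}
      zero_mem' := ⟨by simp, fun i j => trivial⟩
      add_mem' := by
        rintro A B ⟨h1, _⟩ ⟨h3, _⟩
        exact ⟨by rw [transpose_add, h1, h3], fun i j => trivial⟩
      neg_mem' := by
        rintro A ⟨h1, _⟩
        exact ⟨by rw [transpose_neg, h1], fun i j => trivial⟩ }
  obtain ⟨hfin, hcard⟩ := EQB_adj F M hM
  have := hfin
  have : Finite G := EQB_finite (fun i j => {p : F[X] | p.natDegree ≤ Nn i j})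
    (fun i j => by rw [hNsym]) (fun i j => (EQB_poly F _).1)
  have hHf : ∀ (R : Type) [AddCommGroup R] [Finite R], Finite (H R) := by
    intro R _ _
    exact EQB_finite (fun _ _ => (Set.univ : Set R)) (fun _ _ => rfl)
      (fun _ _ => Finite.of_equiv R (Equiv.Set.univ R).symm)
  have := hHf (AdjoinRoot M)
  have := hHf (F × F)
  have hG : Nat.card G = Nat.card F ^ (12 * n + 6) := by
    have h := EQB_card (fun i j => {p : F[X] | p.natDegree ≤ Nn i j}) (fun i j => by rw [hNsym])
    refine h.trans ?_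
    rw [(EQB_poly F _).2, (EQB_poly F _).2, (EQB_poly F _).2, (EQB_poly F _).2, (EQB_poly F _).2,
      (EQB_poly F _).2]
    rw [← pow_add, ← pow_add, ← pow_add, ← pow_add, ← pow_add]
    congr 1
    have h00 := hNn 0 0
    have h01 := hNn 0 1
    have h02 := hNn 0 2
    have h11 := hNn 1 1
    have h12 := hNn 1 2
    have h22 := hNn 2 2
    simp only [dd, Matrix.cons_val_zero, Matrix.cons_val_one, Matrix.cons_val_two,
      Matrix.head_cons, Matrix.tail_cons, Matrix.cons_val] at h00 h01 h02 h11 h12 h22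
    omega
  have hH : ∀ (R : Type) [AddCommGroup R] [Finite R], Nat.card (H R) = Nat.card R ^ 6 := by
    intro R _ _
    have h := EQB_card (fun _ _ => (Set.univ : Set R)) (fun _ _ => rfl)
    refine h.trans ?_
    rw [Nat.card_congr (Equiv.Set.univ R)]
    ring
  let ψ : G →+ (H (AdjoinRoot M)) × (H (F × F)) :=
    { toFun := fun B => (⟨B.1.map (AdjoinRoot.mk M), by
          refine ⟨?_, fun i j => trivial⟩
          rw [← transpose_map, B.2.1]⟩,
        ⟨Matrix.of fun i j => ((B.1 i j).coeff (Nn i j), (B.1 i j).coeff (Nn i j - 1)), by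
          refine ⟨?_, fun i j => trivial⟩
          ext i j
          · show (B.1 j i).coeff (Nn j i) = (B.1 i j).coeff (Nn i j)
            rw [hNsym j i]
            congr 1
            conv_rhs => rw [← B.2.1]
            rfl
          · show (B.1 j i).coeff (Nn j i - 1) = (B.1 i j).coeff (Nn i j - 1)
            rw [hNsym j i]
            congr 1
            conv_rhs => rw [← B.2.1]
            rfl⟩)
      map_zero' := by
        refine Prod.ext (Subtype.ext ?_) (Subtype.ext ?_)
        · ext i j; simp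
        · ext i j <;> simp
      map_add' := by
        intro A B
        refine Prod.ext (Subtype.ext ?_) (Subtype.ext ?_)
        · ext i j; simp
        · ext i j <;> simp }
  have hψ : Function.Surjective ψ := by
    rintro ⟨⟨w, hw, _⟩, ⟨v, hv, _⟩⟩
    have hex : ∀ i j, ∃ p : F[X], p.natDegree ≤ Nn i j ∧ AdjoinRoot.mk M p = w i j ∧
        p.coeff (Nn i j) = (v i j).1 ∧ p.coeff (Nn i j - 1) = (v i j).2 := fun i j =>
      EQB_surj F M hM (Nn i j) (hNlow i j) _ _ _
    choose p hp1 hp2 hp3 hp4 using hex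
    have hws : ∀ i j, w i j = w j i := by
      intro i j
      conv_lhs => rw [← hw]
      rfl
    have hvs : ∀ i j, v i j = v j i := by
      intro i j
      conv_lhs => rw [← hv]
      rfl
    let B : Matrix (Fin 3) (Fin 3) F[X] := Matrix.of fun i j => if i ≤ j then p i j else p j i
    have hB : ∀ i j, (B i j).natDegree ≤ Nn i j ∧ AdjoinRoot.mk M (B i j) = w i j ∧
        (B i j).coeff (Nn i j) = (v i j).1 ∧ (B i j).coeff (Nn i j - 1) = (v i j).2 := by
      intro i j
      show ((if i ≤ j then p i j else p j i).natDegree ≤ Nn i j) ∧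
        AdjoinRoot.mk M (if i ≤ j then p i j else p j i) = w i j ∧
        (if i ≤ j then p i j else p j i).coeff (Nn i j) = (v i j).1 ∧
        (if i ≤ j then p i j else p j i).coeff (Nn i j - 1) = (v i j).2
      by_cases hij : i ≤ j
      · rw [if_pos hij]
        exact ⟨hp1 i j, hp2 i j, hp3 i j, hp4 i j⟩
      · rw [if_neg hij, hNsym i j, hws i j, hvs i j]
        exact ⟨hp1 j i, hp2 j i, hp3 j i, hp4 j i⟩
    have hBt : Bᵀ = B := by
      ext1 i j
      show (if j ≤ i then p j i else p i j) = (if i ≤ j then p i j else p j i)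
      rcases lt_trichotomy i j with h | h | h
      · rw [if_neg (not_le.2 h), if_pos h.le]
      · subst h; rfl
      · rw [if_pos h.le, if_neg (not_le.2 h)]
    refine ⟨⟨B, hBt, fun i j => (hB i j).1⟩, ?_⟩
    refine Prod.ext (Subtype.ext ?_) (Subtype.ext ?_)
    · ext1 i j
      exact (hB i j).2.1
    · ext1 i j
      exact Prod.ext (hB i j).2.2.1 (hB i j).2.2.2
  let T : Set ((H (AdjoinRoot M)) × (H (F × F))) := {x | x.1.1 ∈ W ∧ x.2.1 ∈ V}
  have hT : Nat.card T = W.ncard * V.ncard := by
    let e : T ≃ W × V :=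
      { toFun := fun x => (⟨x.1.1.1, x.2.1⟩, ⟨x.1.2.1, x.2.2⟩)
        invFun := fun y => ⟨(⟨y.1.1, hW _ y.1.2, fun _ _ => trivial⟩,
          ⟨y.2.1, hV _ y.2.2, fun _ _ => trivial⟩), y.1.2, y.2.2⟩
        left_inv := fun _ => rfl
        right_inv := fun _ => rfl }
    rw [Nat.card_congr e, Nat.card_prod, Nat.card_coe_set_eq, Nat.card_coe_set_eq]
  have hmain := EQB_fib ψ hψ T
  have hS : {B : Matrix (Fin 3) (Fin 3) F[X] | Bd n m B ∧ B.map (AdjoinRoot.mk M) ∈ W ∧
        (Matrix.of fun i j => ((B i j).coeff (2 * (n : ℤ) + dd m i + dd m j).toNat,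
          (B i j).coeff ((2 * (n : ℤ) + dd m i + dd m j).toNat - 1))) ∈ V}.ncard =
      Nat.card {g : G // ψ g ∈ T} := by
    rw [← Nat.card_coe_set_eq]
    apply Nat.card_congr
    exact
      { toFun := fun B => ⟨⟨B.1, (hBd B.1).1 B.2.1⟩, B.2.2.1, B.2.2.2⟩
        invFun := fun g => ⟨g.1.1, (hBd g.1.1).2 g.1.2, g.2.1, g.2.2⟩
        left_inv := fun _ => rfl
        right_inv := fun _ => rfl }
  rw [hS]
  rw [Nat.card_prod, hH, hH, hcard, Nat.card_prod, hG, hT] at hmain
  rw [← hmain]
  ring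

end Pool.AVR
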