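import Pool.Agent.H10.AVR.DNF
import Pool.Agent.H14.AVR.Stmts4

/-! # AVR, module DNG: equations with squarefree discriminant, all odd characteristics -/

set_option autoImplicit false

namespace Pool.AVR

open Polynomial

open H10DNF in
theorem dng_thm (hEQF : EQFStmt) (hTAI : TAIStmt) (hTA5 : TA5Stmt) (hTOP : TOPStmt) : DNGStmt := by
  classical
  intro F _ _ h2 ε hε
  have hTT : TAIc F := by
    by_cases h3 : (3 : F) = 0
    · exact hTAI F h3
    · exact hTA5 F h2 h3
  obtain ⟨D, N₀, hD⟩ := hTT ε hε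
  refine ⟨D, fun S hS hSD => ?_⟩
  set M : F[X] := ∏ P ∈ S, P ^ 2 with hMdef
  have hM : M.Monic := monic_prod_of_monic _ _ (fun P hP => (hS P hP).1.pow 2)
  refine ⟨max N₀ (M.natDegree + 1), fun n hn => ⟨(Fam_finite n).subset (Set.sep_subset _ _), ?_⟩⟩
  have hnN : N₀ ≤ n := (le_max_left _ _).trans hn
  have hnM : M.natDegree + 1 ≤ n := (le_max_right _ _).trans hn
  set q : ℝ := (Nat.card F : ℝ) with hq
  have hq0 : 0 < q := by rw [hq]; exact_mod_cast Nat.card_pos
  set V : Set (DualNumber F × DualNumber F × DualNumber F) := {v | disc v.1 v.2.1 v.2.2 ≠ 0}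
    with hV
  set A : Set (F[X] × F[X] × F[X]) := {f ∈ Fam F n | (AdjoinRoot.mk M f.1, AdjoinRoot.mk M f.2.1,
    AdjoinRoot.mk M f.2.2) ∈ WW S M ∧
        (top (2 * n) f.1, top (4 * n) f.2.1, top (6 * n) f.2.2) ∈ V} with hA
  set B : Set (F[X] × F[X] × F[X]) := {f ∈ Fam F n | ∃ P : F[X], P.Monic ∧ Irreducible P ∧
    D < P.natDegree ∧ P ^ 2 ∣ disc f.1 f.2.1 f.2.2} with hB
  have hcount := hEQF F n M hM.ne_zero (by omega) (by omega) (WW S M) V
  rw [← hA] at hcount
  have hBc : (B.ncard : ℝ) ≤ ε * q ^ (12 * n + 3) := hD n hnN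
  have hAfin : A.Finite := (Fam_finite n).subset (Set.sep_subset _ _)
  have hBfin : B.Finite := (Fam_finite n).subset (Set.sep_subset _ _)
  have hSFfin : (SF F n).Finite := (Fam_finite n).subset (Set.sep_subset _ _)
  have hsub : A ⊆ SF F n ∪ B := by
    rintro f ⟨hf, hfW, hfV⟩
    by_cases hfB : f ∈ B
    · exact Or.inr hfB
    refine Or.inl ⟨hf, ?_, ?_⟩
    · have hne : disc f.1 f.2.1 f.2.2 ≠ 0 := by
        intro h0
        apply hfV
        have := (hTOP F n 0 (by omega)).2 f hf
        change disc (top (2 * n) f.1) (top (4 * n) f.2.1) (top (6 * n) f.2.2) = 0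
        rw [← this, h0]
        simp [top]
        rfl
      rw [squarefree_iff_irreducible_sq_not_dvd_of_ne_zero hne]
      intro P hP hdvd
      set Q := normalize P with hQ
      have hass : Associated Q P := normalize_associated P
      have hQm : Q.Monic := monic_normalize hP.ne_zero
      have hQi : Irreducible Q := hass.symm.irreducible hP
      have hQd : Q ^ 2 ∣ disc f.1 f.2.1 f.2.2 := by
        refine dvd_trans ?_ hdvd
        rw [sq]
        exact mul_dvd_mul hass.dvd hass.dvd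
      by_cases hdeg : Q.natDegree ≤ D
      · have hQS := hSD Q hQm hQi hdeg
        have := hfW Q hQS f rfl rfl rfl
        apply this
        rw [← disc_map, AdjoinRoot.mk_eq_zero]
        exact hQd
      · exact hfB ⟨hf, Q, hQm, hQi, by omega, hQd⟩
    · by_contra hlt
      push Not at hlt
      apply hfV
      have := (hTOP F n 0 (by omega)).2 f hf
      change disc (top (2 * n) f.1) (top (4 * n) f.2.1) (top (6 * n) f.2.2) = 0
      rw [← this]
      unfold top
      rw [coeff_eq_zero_of_natDegree_lt (by omega), coeff_eq_zero_of_natDegree_lt (by omega)]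
      rfl
  have hle : (A.ncard : ℝ) ≤ (SF F n).ncard + B.ncard := by
    have h1 := (Set.ncard_le_ncard hsub (hSFfin.union hBfin)).trans (Set.ncard_union_le _ _)
    exact_mod_cast h1
  have hWc : ((∏ P ∈ S, (GP P).ncard : ℕ) : ℝ) ≤ ((WW S M).ncard : ℝ) := by
    exact_mod_cast WW_card S hS
  have hcR : (A.ncard : ℝ) * (q ^ (3 * M.natDegree) * q ^ 6) =
      q ^ (12 * n + 3) * ((WW S M).ncard * V.ncard) := by
    rw [hq]
    exact_mod_cast hcount
  have hdual : dens (DualNumber F) = V.ncard / q ^ 6 := by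
    have hcard : (Nat.card (DualNumber F) : ℝ) = q ^ 2 := by
      have : Nat.card (DualNumber F) = Nat.card F ^ 2 := by
        rw [sq]
        exact Nat.card_prod F F
      rw [this, hq]
      push_cast
      rfl
    unfold dens
    rw [hcard, ← pow_mul]
  have hprod : ∏ P ∈ S, dens (AdjoinRoot (P ^ 2)) =
      ((∏ P ∈ S, (GP P).ncard : ℕ) : ℝ) / q ^ (3 * M.natDegree) := by
    have h1 : ∀ P ∈ S, dens (AdjoinRoot (P ^ 2)) =
        ((GP P).ncard : ℝ) / q ^ (3 * (P ^ 2).natDegree) := by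
      intro P hP
      have : (Nat.card (AdjoinRoot (P ^ 2)) : ℝ) = q ^ (P ^ 2).natDegree := by
        rw [adj_card ((hS P hP).1.pow 2), hq]
        push_cast
        rfl
      unfold dens
      rw [this, ← pow_mul, mul_comm (P ^ 2).natDegree 3]
      rfl
    rw [Finset.prod_congr rfl h1, Finset.prod_div_distrib, Finset.prod_pow_eq_pow_sum,
      ← Finset.mul_sum]
    push_cast
    congr 3
    rw [hMdef, natDegree_prod_of_monic _ _ (fun P hP => (hS P hP).1.pow 2)]
  have hAlow : q ^ (12 * n + 3) * (dens (DualNumber F) * ∏ P ∈ S, dens (AdjoinRoot (P ^ 2))) ≤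
      A.ncard := by
    have hden : 0 < q ^ (3 * M.natDegree) * q ^ 6 := by positivity
    have hAeq : (A.ncard : ℝ) = q ^ (12 * n + 3) * ((WW S M).ncard * V.ncard) /
        (q ^ (3 * M.natDegree) * q ^ 6) := by
      rw [eq_div_iff hden.ne', hcR]
    rw [hAeq, hdual, hprod, le_div_iff₀ hden]
    have h2 : q ^ (12 * n + 3) * ((V.ncard : ℝ) / q ^ 6 *
        (((∏ P ∈ S, (GP P).ncard : ℕ) : ℝ) / q ^ (3 * M.natDegree))) *
        (q ^ (3 * M.natDegree) * q ^ 6) =
        q ^ (12 * n + 3) * ((((∏ P ∈ S, (GP P).ncard : ℕ) : ℝ)) * V.ncard) := by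
      field_simp
    rw [h2]
    gcongr
  have : q ^ (12 * n + 3) * (dens (DualNumber F) * ∏ P ∈ S, dens (AdjoinRoot (P ^ 2)) - ε) =
      q ^ (12 * n + 3) * (dens (DualNumber F) * ∏ P ∈ S, dens (AdjoinRoot (P ^ 2))) -
        ε * q ^ (12 * n + 3) := by ring
  rw [this]
  linarith

end Pool.AVR
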