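import Pool.Agent.H87.AVR.ST3
import Pool.Agent.H14.AVR.Stmts4

/-! # AVR, module ST4: squarefree discriminants in all odd characteristics -/

set_option autoImplicit false

namespace Pool.AVR

open Polynomial Matrix

open ST3 in
open Classical in
theorem st4_thm (hNUM : NUMStmt) (hDNG : DNGStmt) (hPRG : PRGStmt) (hZET : ZETStmt)
    (hSFI : SFIStmt) (hFIN : FINStmt) (hSTAB : STABStmt) (hGRP : GRPStmt) (hCNB : CNBStmt) :
    ST4Stmt := by
  intro F _ _ h2 ε0 hε0
  -- reduce to `ε ≤ 1`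
  set ε : ℝ := min ε0 1 with hεdef
  have hε : 0 < ε := lt_min hε0 one_pos
  have hε1 : ε ≤ 1 := min_le_right _ _
  have hεε : ε ≤ ε0 := min_le_left _ _
  have hq3 := ST2.three_le h2
  set q : ℝ := (Nat.card F : ℝ) with hqdef
  have hq : 3 ≤ q := by
    rw [hqdef]
    exact_mod_cast hq3
  have hq0 : 0 < q := by linarith
  obtain ⟨c, hc, hPRD'⟩ := hPRG F h2
  obtain ⟨D1, hD1⟩ := hZET F (ε / 12) (by positivity)
  obtain ⟨D2, hD2⟩ := hDNG F h2 (ε * c / 9) (by positivity)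
  obtain ⟨S, hS1, hS2⟩ := primes_fin F (max D1 D2)
  have hZ := hD1 S hS1 (fun P h h' h'' => hS2 P h h' (h''.trans (le_max_left _ _)))
  obtain ⟨N1, hN1⟩ := hD2 S hS1 (fun P h h' h'' => hS2 P h h' (h''.trans (le_max_right _ _)))
  obtain ⟨D3, hD3⟩ := hNUM F h2 S hS1
  obtain ⟨N2, hN2⟩ := tail q (ε * c / 3) hq (by positivity) D3
  have hd := hPRD' S hS1
  set d : ℝ := dens (DualNumber F) * ∏ P ∈ S, dens (AdjoinRoot (P ^ 2)) with hddef
  set Z : ℝ := ∏ P ∈ S, (1 - 1 / q ^ (2 * P.natDegree)) with hZdef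
  have hZ0 : 0 ≤ Z := by
    apply Finset.prod_nonneg
    intro P hP
    have h4 : 1 ≤ P.natDegree := (hS1 P hP).2.natDegree_pos
    have h5 : 1 / q ^ (2 * P.natDegree) ≤ 1 := by
      rw [div_le_one (by positivity)]
      exact one_le_pow₀ (by linarith)
    linarith
  have hd0 : 0 < d := lt_of_lt_of_le hc hd
  refine ⟨max (max N1 N2) 1, fun n hn => ?_⟩
  have hnN1 : N1 ≤ n := (le_max_left _ _).trans ((le_max_left _ _).trans hn)
  have hnN2 : N2 ≤ n := (le_max_right _ _).trans ((le_max_left _ _).trans hn)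
  have hn1 : 1 ≤ n := (le_max_right _ _).trans hn
  obtain ⟨hfin, hlow⟩ := hN1 n hnN1
  have hsub : SF F n ⊆ Irr F n := hSFI F h2 n hn1
  have hT0 : 0 < q ^ (12 * n + 3) := by positivity
  have hcard0 : (0 : ℝ) < ((SF F n).ncard : ℝ) := by
    refine lt_of_lt_of_le ?_ hlow
    apply mul_pos hT0
    have : ε * c / 9 < c := by nlinarith
    linarith
  -- the sum over the classes
  obtain ⟨hF1, hF2⟩ := hFIN F h2 n 1 (SF F n) (fun f hf => hf.1) (fun f hf => (hsub hf).2.2)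
    (by
      intro B hB ⟨f, hf, hfB⟩
      have hsub1 : {g : Matrix (Fin 3) (Fin 3) F[X] | gᵀ * AA F[X] * g = AA F[X] ∧
          gᵀ * B * g = B ∧ g.det = 1} ⊆ {1} := by
        intro g hg
        exact st1_stab hSTAB F h2 B hB f (hsub hf).2.1 hfB g hg.1 hg.2.1 hg.2.2
      refine ⟨(Set.finite_singleton _).subset hsub1, ?_⟩
      exact (Set.ncard_le_ncard hsub1 (Set.finite_singleton _)).trans
        (by rw [Set.ncard_singleton]))
  have hset : ∀ f ∈ SF F n, {ξ : Mod2 (EK f) | ξ ≠ 0 ∧ ∃ (x y : RatFunc F)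
      (h : (E (algebraMap F[X] (RatFunc F) f.1) (algebraMap F[X] (RatFunc F) f.2.1)
        (algebraMap F[X] (RatFunc F) f.2.2)).toAffine.Nonsingular x y), y ≠ 0 ∧
        QuotientAddGroup.mk (WeierstrassCurve.Affine.Point.some x y h) = ξ} =
        {ξ : Mod2 (EK f) | ξ ≠ 0} := by
    intro f hf
    ext ξ
    refine ⟨fun h => h.1, fun h => ⟨h, ?_⟩⟩
    obtain ⟨P, rfl⟩ := QuotientAddGroup.mk_surjective ξ
    cases P with
    | zero => exact absurd (QuotientAddGroup.mk_zero _) h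
    | some x y hP => exact ⟨x, y, hP, st1_root F f (hsub hf).2.1 x y hP, rfl⟩
  have hfinM : ∀ f ∈ SF F n, Finite (Mod2 (EK f)) := by
    intro f hf
    have h3 := hF1 f hf
    rw [hset f hf] at h3
    have h4 : (Set.univ : Set (Mod2 (EK f))).Finite := by
      refine ((Set.finite_singleton (0 : Mod2 (EK f))).union h3).subset ?_
      intro ξ _
      by_cases hξ : ξ = 0
      · exact Or.inl hξ
      · exact Or.inr hξ
    exact Set.finite_univ_iff.1 h4
  have hsum : ∑ᶠ f ∈ SF F n, ((Nat.card (Mod2 (EK f)) : ℝ) - 1) =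
      ∑ᶠ f ∈ SF F n, ({ξ : Mod2 (EK f) | ξ ≠ 0 ∧ ∃ (x y : RatFunc F)
      (h : (E (algebraMap F[X] (RatFunc F) f.1) (algebraMap F[X] (RatFunc F) f.2.1)
        (algebraMap F[X] (RatFunc F) f.2.2)).toAffine.Nonsingular x y), y ≠ 0 ∧
        QuotientAddGroup.mk (WeierstrassCurve.Affine.Point.some x y h) = ξ}.ncard : ℝ) := by
    refine finsum_mem_congr rfl (fun f hf => ?_)
    rw [hset f hf]
    have hfi := hfinM f hf
    have h5 : ({ξ : Mod2 (EK f) | ξ ≠ 0} : Set (Mod2 (EK f))) = {0}ᶜ := rfl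
    rw [h5, Set.ncard_compl, Set.ncard_singleton]
    have h6 : 1 ≤ Nat.card (Mod2 (EK f)) := Nat.card_pos
    push_cast [h6]
    rfl
  obtain ⟨hG1, hG2, hG3⟩ := hGRP F h2
  have hcardS : ∀ n m : ℕ, m ≤ n → ({B : Matrix (Fin 3) (Fin 3) F[X] | Bd n m B ∧
          ∃ f ∈ SF F n, (AA F[X] * B).charpoly = cubP f}.ncard : ℝ) ≤ q ^ (12 * n + 6) := by
    intro n m hmn
    obtain ⟨hC1, hC2⟩ := hCNB F n m hmn
    have h8 := (Set.ncard_le_ncard (s := {B : Matrix (Fin 3) (Fin 3) F[X] | Bd n m B ∧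
          ∃ f ∈ SF F n, (AA F[X] * B).charpoly = cubP f}) (fun B hB => hB.1) hC1).trans hC2
    rw [hqdef]
    exact_mod_cast h8
  have hX := sumM q ((1 - 1 / q ^ 2) * d * Z) hq (by
      have h5 : 1 / q ^ 2 ≤ 1 := by
        rw [div_le_one (by positivity)]
        exact one_le_pow₀ (by linarith)
      exact mul_nonneg (mul_nonneg (by linarith) hd0.le) hZ0) D3 n
    (fun m => ({B : Matrix (Fin 3) (Fin 3) F[X] | Bd n m B ∧
          ∃ f ∈ SF F n, (AA F[X] * B).charpoly = cubP f}.ncard : ℝ))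
    (fun m => ((GG F m).ncard : ℝ)) (fun m => Nat.cast_nonneg _) (fun m hm => hcardS n m hm)
    (fun m hm => by
      have h5 := hD3 n m hm
      refine h5.trans (le_of_eq ?_)
      rw [Finset.prod_mul_distrib, ← hZdef, hddef]
      ring)
    (fun m => ST2.GG_ge hGRP h2 m)
    (by
      have h11 : Nat.card F ≤ Nat.card F ^ 3 := Nat.le_self_pow (by norm_num) _
      have h12 : ((Nat.card F ^ 3 - Nat.card F : ℕ) : ℝ) ≤ ((GG F 0).ncard : ℝ) := by
        exact_mod_cast hG2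
      rw [Nat.cast_sub h11] at h12
      push_cast at h12
      exact h12)
    (fun m hm => by
      have h12 : (((Nat.card F - 1) * Nat.card F ^ (m + 1) : ℕ) : ℝ) ≤
          ((GG F m).ncard : ℝ) := by
        exact_mod_cast hG3 m hm
      rw [Nat.cast_mul, Nat.cast_sub (le_of_lt (Finite.one_lt_card))] at h12
      push_cast at h12
      exact h12)
  have hX2 : ∑ᶠ f ∈ SF F n, ((Nat.card (Mod2 (EK f)) : ℝ) - 1) ≤
      q ^ 3 * q ^ (12 * n + 3) * ((1 - 1 / q ^ 2) * d * Z) * (2 / ((q - 1) ^ 2 * (q + 1))) +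
        ε * c / 3 * q ^ (12 * n + 3) := by
    rw [hsum]
    refine hF2.trans ?_
    rw [Nat.cast_one, one_mul]
    refine hX.trans ?_
    have e1 : q ^ (12 * n + 6) = q ^ 3 * q ^ (12 * n + 3) := by
      rw [← pow_add]
      congr 1
      ring
    have h9 := hN2 n hnN2
    rw [e1] at h9 ⊢
    linarith
  have hfinal := final q ε d c _ ((SF F n).ncard : ℝ) (q ^ (12 * n + 3)) Z (ε * c / 9) hq hε hε1
    hT0 hc hd hZ le_rfl hX2 hlow
  refine ⟨by exact_mod_cast hcard0, hfinM, ?_⟩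
  have hsplit : ∑ᶠ f ∈ SF F n, (Nat.card (Mod2 (EK f)) : ℝ) =
      ∑ᶠ f ∈ SF F n, ((Nat.card (Mod2 (EK f)) : ℝ) - 1) + (SF F n).ncard := by
    have e2 : ∑ᶠ f ∈ SF F n, (1 : ℝ) = (SF F n).ncard := by
      rw [finsum_mem_eq_finite_toFinset_sum _ hfin, Finset.sum_const, nsmul_eq_mul, mul_one,
        Set.ncard_eq_toFinset_card _ hfin]
    rw [← e2, ← finsum_mem_add_distrib hfin]
    refine finsum_mem_congr rfl (fun f _ => ?_)
    ring
  rw [hsplit]
  have h13 : (3 + ε) * ((SF F n).ncard : ℝ) ≤ (3 + ε0) * (SF F n).ncard :=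
    mul_le_mul_of_nonneg_right (by linarith) hcard0.le
  linarith

end Pool.AVR
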